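import Mathlib

/-!
Nearest-sign rotation sequences: definitions.
-/

namespace Pool.Agent.H90.NearestSign

/-- The unit vector `e^{2πiαn}`. -/
noncomputable def rot (α : ℝ) (n : ℕ) : ℂ := Complex.exp (2 * Real.pi * α * n * Complex.I)

/-- The sign `ε ∈ {1,-1}` for which `|z + ε e|` is smaller (`1` in a tie; ties are excluded by
`Admissible`). -/
noncomputable def eps (z e : ℂ) : ℤ := if ‖z + e‖ ≤ ‖z - e‖ then 1 else -1

/-- `zseq α z₀ n` is the point `z_{n-1}`: it starts with `z_{-1} = z₀`, and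
`z_n = z_{n-1} + ε_n e^{2πiαn}`. -/
noncomputable def zseq (α : ℝ) (z₀ : ℂ) : ℕ → ℂ
  | 0 => z₀
  | n + 1 => zseq α z₀ n + (eps (zseq α z₀ n) (rot α n) : ℂ) * rot α n

/-- The sign sequence `ε_0, ε_1, …`. -/
noncomputable def signSeq (α : ℝ) (z₀ : ℂ) (n : ℕ) : ℤ := eps (zseq α z₀ n) (rot α n)

/-- No tie ever occurs. -/
def Admissible (α : ℝ) (z₀ : ℂ) : Prop :=
  ∀ n : ℕ, ‖zseq α z₀ n + rot α n‖ ≠ ‖zseq α z₀ n - rot α n‖

/-- `p ≥ 1` and `s (n + p) = s n` for all large `n`. -/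
def IsEventualPeriod (s : ℕ → ℤ) (p : ℕ) : Prop := 1 ≤ p ∧ ∃ N, ∀ n, N ≤ n → s (n + p) = s n

/-- The sequence is eventually periodic. -/
def EventuallyPeriodic (s : ℕ → ℤ) : Prop := ∃ p, IsEventualPeriod s p

/-- The period of an eventually periodic sequence: its least eventual period. -/
noncomputable def period (s : ℕ → ℤ) : ℕ := sInf {p | IsEventualPeriod s p}

end Pool.Agent.H90.NearestSign
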