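import Pool.Agent.H90.NearestSign.Defs

/-!
A nearest-sign rotation sequence whose sign sequence is periodic with period `28`.
-/

open Complex

namespace Pool.Agent.H90.NearestSign

/-- the scale -/
def SS : ℤ := 878198392162075449624

/-- The signs (of the real parts) along half a period. -/
def sg (k : ℕ) : ℤ := if k = 0 ∨ k = 2 then 1 else if k < 14 then -1 else 0

/-- Scaled integer orbit. -/
def BB : ℕ → ℤ × ℤ
  | 0 => (327933879146082566255, 220186732654776163525)
  | k + 1 =>
    let t : ℤ := (BB k).1 - sg k * SS * 997 ^ k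
    (372 * t + 925 * (BB k).2, 372 * (BB k).2 - 925 * t)

lemma BB_sign : ∀ k, k < 14 → 0 < sg k * (BB k).1 := by decide +kernel

lemma BB_end : BB 14 = (-(BB 0).1 * 997 ^ 14, -(BB 0).2 * 997 ^ 14) := by decide +kernel

/-- the angle -/
noncomputable def om : ℂ := (372 + 925 * I) / 997

noncomputable def al : ℝ := Complex.arg om / (2 * Real.pi)

lemma norm_om : ‖om‖ = 1 := by
  have h1 : ‖(372 + 925 * I : ℂ)‖ = 997 := by
    have h2 : (372 + 925 * I : ℂ) = ((372:ℝ) : ℂ) + ((925:ℝ):ℂ) * I := by push_cast; ring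
    rw [h2, Complex.norm_add_mul_I]
    rw [show (372:ℝ) ^ 2 + 925 ^ 2 = 997 ^ 2 by norm_num]
    exact Real.sqrt_sq (by norm_num)
  rw [om, norm_div, h1]
  norm_num

lemma om_eq : om = ⟨372 / 997, 925 / 997⟩ := by
  apply Complex.ext
  · simp [om]
  · simp [om]

lemma exp_al : Complex.exp (2 * Real.pi * al * I) = om := by
  have h1 : (2 * Real.pi * al * I : ℂ) = (Complex.arg om : ℂ) * I := by
    rw [al]
    push_cast
    have : (Real.pi : ℂ) ≠ 0 := by exact_mod_cast Real.pi_ne_zero
    field_simp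
  rw [h1]
  have h2 := Complex.norm_mul_exp_arg_mul_I om
  rw [norm_om] at h2
  simpa using h2

lemma rot_al (n : ℕ) : rot al n = om ^ n := by
  rw [rot, ← exp_al, ← Complex.exp_nat_mul]
  congr 1
  ring

lemma om_ne : om ≠ 0 := by
  intro h
  have := norm_om
  rw [h, norm_zero] at this
  exact zero_ne_one this

lemma al_pos : 0 < al := by
  rw [al]
  apply div_pos _ (by positivity)
  have h1 : 0 ≤ Complex.arg om := by
    rw [Complex.arg_nonneg_iff, om_eq]
    norm_num
  have h2 : Complex.arg om ≠ 0 := by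
    intro h
    rw [Complex.arg_eq_zero_iff] at h
    rw [om_eq] at h
    norm_num at h
  exact lt_of_le_of_ne h1 (Ne.symm h2)

lemma al_irrational : Irrational al := by
  intro ⟨r, hr⟩
  have hcos : Real.cos (Complex.arg om) = 372 / 997 := by
    rw [Complex.cos_arg om_ne, norm_om, om_eq]
    norm_num
  have harg : Complex.arg om = (2 * r : ℚ) * Real.pi := by
    have h1 : al * (2 * Real.pi) = Complex.arg om := by
      rw [al]; field_simp
    rw [← h1, ← hr]
    push_cast
    ring
  have h := niven (θ := Complex.arg om) ⟨2 * r, harg⟩ ⟨372 / 997, by rw [hcos]; norm_num⟩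
  rw [hcos] at h
  norm_num at h

/-- complex value of the scaled orbit -/
noncomputable def VV (k : ℕ) : ℂ := (((BB k).1 : ℂ) + ((BB k).2 : ℂ) * I) / ((SS : ℂ) * 997 ^ k)

lemma SS_ne : (SS : ℂ) ≠ 0 := by
  have : SS ≠ 0 := by decide
  exact_mod_cast this

lemma VV_re (k : ℕ) : (VV k).re = ((BB k).1 : ℝ) / ((SS : ℝ) * 997 ^ k) := by
  obtain ⟨x, hx⟩ : ∃ x : ℝ, x = ((BB k).1 : ℝ) / ((SS : ℝ) * 997 ^ k) := ⟨_, rfl⟩
  obtain ⟨y, hy⟩ : ∃ y : ℝ, y = ((BB k).2 : ℝ) / ((SS : ℝ) * 997 ^ k) := ⟨_, rfl⟩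
  have h : VV k = (x : ℂ) + (y : ℂ) * I := by
    rw [VV, hx, hy]
    push_cast
    ring
  rw [h, ← hx]
  simp

lemma VV_succ (k : ℕ) : om * VV (k + 1) = VV k - (sg k : ℂ) := by
  have hS := SS_ne
  have h997 : ((997:ℂ)) ^ k ≠ 0 := pow_ne_zero _ (by norm_num)
  rw [VV, VV, om]
  simp only [BB]
  push_cast
  rw [pow_succ]
  field_simp
  ring_nf
  simp only [I_sq]
  ring

lemma VV_end : VV 14 = - VV 0 := by
  have hS := SS_ne
  rw [VV, VV, BB_end]
  push_cast
  field_simp
  ring

lemma SS_pos : (0:ℝ) < SS := by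
  have : 0 < SS := by decide
  exact_mod_cast this

lemma VV_sign_pos {k : ℕ} (hk : k < 14) (hs : sg k = 1) : 0 < (VV k).re := by
  have h := BB_sign k hk
  rw [hs, one_mul] at h
  rw [VV_re]
  have h1 : (0:ℝ) < (BB k).1 := by exact_mod_cast h
  have := SS_pos
  positivity

lemma VV_sign_neg {k : ℕ} (hk : k < 14) (hs : sg k = -1) : (VV k).re < 0 := by
  have h := BB_sign k hk
  rw [hs] at h
  rw [VV_re]
  have h1 : ((BB k).1 : ℝ) < 0 := by
    have : (BB k).1 < 0 := by linarith
    exact_mod_cast this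
  have := SS_pos
  exact div_neg_of_neg_of_pos h1 (by positivity)

lemma sg_cases {k : ℕ} (hk : k < 14) : sg k = 1 ∨ sg k = -1 := by
  unfold sg
  split_ifs <;> simp

/-- comparison of the two norms -/
lemma norm_compare (v e : ℂ) (he : ‖e‖ = 1) :
    ‖v * e + e‖ ^ 2 - ‖v * e - e‖ ^ 2 = 4 * v.re := by
  have h1 : v * e + e = (v + 1) * e := by ring
  have h2 : v * e - e = (v - 1) * e := by ring
  rw [h1, h2, norm_mul, norm_mul, he, mul_one, mul_one, Complex.sq_norm, Complex.sq_norm,
    Complex.normSq_apply, Complex.normSq_apply]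
  simp
  ring

lemma eps_of_pos (v e : ℂ) (he : ‖e‖ = 1) (hv : 0 < v.re) : eps (v * e) e = -1 := by
  have h := norm_compare v e he
  have h2 : ¬ ‖v * e + e‖ ≤ ‖v * e - e‖ := by
    intro hle
    have : ‖v * e + e‖ ^ 2 ≤ ‖v * e - e‖ ^ 2 := by gcongr
    linarith
  rw [eps, if_neg h2]

lemma eps_of_neg (v e : ℂ) (he : ‖e‖ = 1) (hv : v.re < 0) : eps (v * e) e = 1 := by
  have h := norm_compare v e he
  have h2 : ‖v * e + e‖ ≤ ‖v * e - e‖ := by
    by_contra hle
    push Not at hle
    have : ‖v * e - e‖ ^ 2 ≤ ‖v * e + e‖ ^ 2 := by gcongr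
    linarith
  rw [eps, if_pos h2]

lemma norm_ne (v e : ℂ) (he : ‖e‖ = 1) (hv : v.re ≠ 0) : ‖v * e + e‖ ≠ ‖v * e - e‖ := by
  intro heq
  have h := norm_compare v e he
  rw [heq, sub_self] at h
  apply hv
  linarith

/-- The sign `(-1)^q` as an integer. -/
def par (q : ℕ) : ℤ := (-1) ^ q

lemma par_cases (q : ℕ) : par q = 1 ∨ par q = -1 := neg_one_pow_eq_or ℤ q

lemma norm_om_pow (n : ℕ) : ‖om ^ n‖ = 1 := by rw [norm_pow, norm_om, one_pow]

lemma eps_orbit (q k n : ℕ) (hk : k < 14) :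
    eps (((par q : ℂ) * VV k) * om ^ n) (om ^ n) = - (par q * sg k) := by
  rcases par_cases q with hp | hp <;> rcases sg_cases hk with hs | hs
  · have h := eps_of_pos ((par q : ℂ) * VV k) (om ^ n) (norm_om_pow n) (by
      rw [hp]; simpa using VV_sign_pos hk hs)
    rw [h, hp, hs]; norm_num
  · have h := eps_of_neg ((par q : ℂ) * VV k) (om ^ n) (norm_om_pow n) (by
      rw [hp]; simpa using VV_sign_neg hk hs)
    rw [h, hp, hs]; norm_num
  · have h := eps_of_neg ((par q : ℂ) * VV k) (om ^ n) (norm_om_pow n) (by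
      rw [hp]; simpa using VV_sign_pos hk hs)
    rw [h, hp, hs]; norm_num
  · have h := eps_of_pos ((par q : ℂ) * VV k) (om ^ n) (norm_om_pow n) (by
      rw [hp]; simpa using VV_sign_neg hk hs)
    rw [h, hp, hs]; norm_num

/-- The orbit. -/
lemma zseq_eq (q : ℕ) : ∀ k, k ≤ 14 →
    zseq al (VV 0) (14 * q + k) = ((par q : ℂ) * VV k) * om ^ (14 * q + k) := by
  induction q with
  | zero =>
    intro k
    induction k with
    | zero => intro _; simp [zseq, par]
    | succ k ih =>
      intro hk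
      have ih' := ih (by omega)
      change zseq al (VV 0) ((14 * 0 + k) + 1) = _
      rw [zseq, ih', rot_al, eps_orbit 0 k _ (by omega)]
      have h := VV_succ k
      push_cast
      rw [show 14 * 0 + (k + 1) = (14 * 0 + k) + 1 by ring, pow_succ]
      calc (par 0 : ℂ) * VV k * om ^ (14 * 0 + k) + -((par 0 : ℂ) * (sg k : ℂ)) * om ^ (14 * 0 + k)
          = (par 0 : ℂ) * om ^ (14 * 0 + k) * (VV k - sg k) := by ring
        _ = (par 0 : ℂ) * om ^ (14 * 0 + k) * (om * VV (k + 1)) := by rw [h]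
        _ = _ := by ring
  | succ q ihq =>
    have h0 : zseq al (VV 0) (14 * (q + 1)) = ((par (q + 1) : ℂ) * VV 0) * om ^ (14 * (q + 1)) := by
      have := ihq 14 le_rfl
      rw [show 14 * (q + 1) = 14 * q + 14 by ring, this, VV_end, par, par]
      push_cast
      ring
    intro k
    induction k with
    | zero => intro _; simpa using h0
    | succ k ih =>
      intro hk
      have ih' := ih (by omega)
      change zseq al (VV 0) ((14 * (q + 1) + k) + 1) = _
      rw [zseq, ih', rot_al, eps_orbit (q + 1) k _ (by omega)]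
      have h := VV_succ k
      push_cast
      rw [show 14 * (q + 1) + (k + 1) = (14 * (q + 1) + k) + 1 by ring, pow_succ]
      calc (par (q + 1) : ℂ) * VV k * om ^ (14 * (q + 1) + k) +
            -((par (q + 1) : ℂ) * (sg k : ℂ)) * om ^ (14 * (q + 1) + k)
          = (par (q + 1) : ℂ) * om ^ (14 * (q + 1) + k) * (VV k - sg k) := by ring
        _ = (par (q + 1) : ℂ) * om ^ (14 * (q + 1) + k) * (om * VV (k + 1)) := by rw [h]
        _ = _ := by ring

lemma zseq_eq' (n : ℕ) : zseq al (VV 0) n = ((par (n / 14) : ℂ) * VV (n % 14)) * om ^ n := by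
  have h := zseq_eq (n / 14) (n % 14) (Nat.mod_lt n (by norm_num)).le
  rw [Nat.div_add_mod] at h
  exact h

lemma signSeq_eq (n : ℕ) : signSeq al (VV 0) n = - (par (n / 14) * sg (n % 14)) := by
  rw [signSeq, zseq_eq', rot_al]
  exact eps_orbit _ _ _ (Nat.mod_lt n (by norm_num))

lemma admissible : Admissible al (VV 0) := by
  intro n
  rw [zseq_eq', rot_al]
  apply norm_ne _ _ (norm_om_pow n)
  have hk : n % 14 < 14 := Nat.mod_lt n (by norm_num)
  rcases par_cases (n / 14) with hp | hp <;> rcases sg_cases hk with hs | hs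
  · rw [hp]; simpa using (VV_sign_pos hk hs).ne'
  · rw [hp]; simpa using (VV_sign_neg hk hs).ne
  · rw [hp]; simpa using (VV_sign_pos hk hs).ne'
  · rw [hp]; simpa using (VV_sign_neg hk hs).ne

/-- Closed form of the sign sequence over one period. -/
def pat (k : ℕ) : ℤ := - ((if k < 14 then 1 else -1) * sg (k % 14))

lemma signSeq_pat (n : ℕ) : signSeq al (VV 0) n = pat (n % 28) := by
  rw [signSeq_eq, pat]
  have h1 : n % 28 % 14 = n % 14 := Nat.mod_mod_of_dvd n (by norm_num)
  rw [h1]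
  have h2 : par (n / 14) = if n % 28 < 14 then 1 else -1 := by
    rw [par]
    split_ifs with h
    · have : Even (n / 14) := by rw [Nat.even_iff]; omega
      exact this.neg_one_pow
    · have : Odd (n / 14) := by rw [Nat.odd_iff]; omega
      exact this.neg_one_pow
  rw [h2]

lemma pat_aperiodic : ∀ p : Fin 28, 1 ≤ (p : ℕ) → ∃ k : Fin 28, pat (((k : ℕ) + p) % 28) ≠ pat k := by
  decide +kernel

lemma isEventualPeriod_28 : IsEventualPeriod (signSeq al (VV 0)) 28 := by
  refine ⟨by norm_num, 0, fun n _ => ?_⟩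
  rw [signSeq_pat, signSeq_pat, Nat.add_mod_right]

lemma period_eq : period (signSeq al (VV 0)) = 28 := by
  have h28 := isEventualPeriod_28
  apply le_antisymm (Nat.sInf_le h28)
  apply le_csInf ⟨28, h28⟩
  intro p hp
  by_contra hlt
  push Not at hlt
  obtain ⟨h1, N, hN⟩ := hp
  obtain ⟨k, hk⟩ := pat_aperiodic ⟨p, hlt⟩ h1
  apply hk
  have h2 := hN (28 * N + k) (by omega)
  rw [signSeq_pat, signSeq_pat] at h2
  have h3 : (28 * N + k + p) % 28 = ((k : ℕ) + p) % 28 := by omega
  have h4 : (28 * N + (k : ℕ)) % 28 = k := by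
    have := k.2
    omega
  rw [h3, h4] at h2
  exact h2

end Pool.Agent.H90.NearestSign
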